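import Mathlib

set_option autoImplicit false

namespace Pool.Agent.Results.MP_025584_ag.Strict

open Filter Topology

abbrev E (n : ℕ) := EuclideanSpace ℝ (Fin n)

/-- `t` is an asymptotic `ρ_a`-nonregular value of `F` -/
def Asym {n : ℕ} (F : E n → ℝ) (a : E n) (t : ℝ) : Prop :=
  ∃ x : ℕ → E n, (∀ j, ¬ LinearIndependent ℝ ![gradient F (x j), x j - a]) ∧
    Tendsto (fun j => ‖x j‖) atTop atTop ∧ Tendsto (fun j => F (x j)) atTop (𝓝 t)

/-- `F` is the first coordinate of a smooth diffeomorphism of the whole space -/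
def Coordinate {n : ℕ} (F : E (n + 1) → ℝ) : Prop :=
  ∃ Φ Ψ : E (n + 1) → E (n + 1), ContDiff ℝ ⊤ Φ ∧ ContDiff ℝ ⊤ Ψ ∧
    (∀ p, Ψ (Φ p) = p) ∧ (∀ q, Φ (Ψ q) = q) ∧ ∀ p, Φ p 0 = F p

noncomputable def F (p : E 3) : ℝ := p 0 * (1 - p 0 ^ 3 * p 1) ^ 2 - p 0 ^ 2 * p 1 + p 1 * p 2

theorem smooth : ContDiff ℝ ⊤ F := by unfold F; fun_prop

theorem coord : Coordinate F := by
  refine ⟨fun p => !₂[F p, p 1, p 2 - 2 * p 0 ^ 4 + p 0 ^ 7 * p 1 - p 0 ^ 2],
    fun q => !₂[q 0 - q 1 * q 2, q 1, q 2 + 2 * (q 0 - q 1 * q 2) ^ 4 - (q 0 - q 1 * q 2) ^ 7 * q 1 +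
      (q 0 - q 1 * q 2) ^ 2], ?_, ?_, fun p => ?_, fun p => ?_, fun p => rfl⟩
  · rw [contDiff_euclidean]; intro i; unfold F; fin_cases i <;> simp <;> fun_prop
  · rw [contDiff_euclidean]; intro i; fin_cases i <;> simp <;> fun_prop
  · ext i; fin_cases i <;> simp [F] <;> ring
  · ext i; fin_cases i <;> simp [F] <;> ring

theorem point (a : E 3) (s : ℝ) (hs : ‖a‖ + 100 ≤ s) : ∃ p : E 3, F p = -1 / s ∧ s / 3 ≤ p 0 ∧
    ¬ LinearIndependent ℝ ![gradient F p, p - a] := by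
  have s0 : 100 ≤ s := by linarith [norm_nonneg a]
  let K : Set (E 3) := {p | F p = -1 / s ∧ s / 3 ≤ p 0 ∧ p 0 ≤ s ∧ 1 / 2 ≤ p 0 ^ 3 * p 1 ∧
    p 0 ^ 3 * p 1 ≤ 3 / 2 ∧ 0 ≤ p 2}
  have rel : ∀ p ∈ K, p 0 ^ 3 * p 1 * p 2 = p 0 ^ 3 * p 1 * p 0 ^ 2 - p 0 ^ 3 / s -
      p 0 ^ 4 * (1 - p 0 ^ 3 * p 1) ^ 2 := by
    intro p hp
    have := hp.1
    unfold F at this
    linear_combination p 0 ^ 3 * this
  have bd : ∀ p ∈ K, 0 ≤ p 1 ∧ p 1 ≤ 1 ∧ p 2 ≤ p 0 ^ 2 := by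
    intro p hp
    have r := rel p hp
    obtain ⟨-, h1, h2, h3, h4, h5⟩ := hp
    have x3 : 2 ≤ p 0 ^ 3 := by nlinarith [pow_le_pow_left₀ (by norm_num) (show 2 ≤ p 0 by linarith) 3]
    refine ⟨by nlinarith, by nlinarith, ?_⟩
    have : 0 ≤ p 0 ^ 3 / s + p 0 ^ 4 * (1 - p 0 ^ 3 * p 1) ^ 2 := by positivity
    nlinarith
  have sq : ∀ p : E 3, ‖p‖ ^ 2 = p 0 ^ 2 + p 1 ^ 2 + p 2 ^ 2 := fun p => by
    simp [EuclideanSpace.norm_sq_eq, Fin.sum_univ_three]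
  have hK : IsCompact K := by
    refine Metric.isCompact_of_isClosed_isBounded ?_ ((Metric.isBounded_closedBall
      (x := (0 : E 3)) (r := s ^ 2 + s + 1)).subset (fun p hp => ?_))
    · refine IsClosed.and (isClosed_eq smooth.continuous continuous_const) (IsClosed.and ?_
        (IsClosed.and ?_ (IsClosed.and ?_ (IsClosed.and ?_ ?_)))) <;>
        (apply isClosed_le <;> fun_prop)
    · obtain ⟨b1, b2, b3⟩ := bd p hp
      obtain ⟨-, h1, h2, h3, h4, h5⟩ := hp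
      rw [mem_closedBall_zero_iff]
      refine le_of_sq_le_sq (by
        have : p 0 ^ 2 ≤ s ^ 2 := by nlinarith
        have : p 2 ^ 2 ≤ (s ^ 2) ^ 2 := by nlinarith
        rw [sq]; nlinarith) (by positivity)
  let c : E 3 := !₂[2 * s / 3, 27 / (8 * s ^ 3), 4 * s ^ 2 / 27]
  have hc : c ∈ K := by
    have e : (2 * s / 3) ^ 3 * (27 / (8 * s ^ 3)) = 1 := by field_simp; norm_num
    refine ⟨?_, ?_, ?_, ?_, ?_, ?_⟩ <;> simp [c, F, e]
    · field_simp; norm_num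
    all_goals first | positivity | linarith | norm_num
  obtain ⟨p, hp, hmax⟩ := hK.exists_isMaxOn ⟨c, hc⟩
    (f := fun p => ‖p - a‖ ^ 2) (by fun_prop)
  have big : s ^ 2 / 9 < p 2 := by
    by_contra hz
    have h := hmax hc
    simp only [Set.mem_ofPred_eq, sq, PiLp.sub_apply] at h
    obtain ⟨b1, b2, b3⟩ := bd p hp
    obtain ⟨-, h1, h2, h3, h4, h5⟩ := hp
    have ha : ∀ i, -s ≤ a i ∧ a i ≤ s := fun i =>
      abs_le.1 ((PiLp.norm_apply_le a i).trans (by linarith))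
    have c2 : c 2 = 4 * s ^ 2 / 27 := rfl
    rw [c2] at h
    have e0 : (p 0 - a 0) ^ 2 ≤ (2 * s) ^ 2 := sq_le_sq' (by linarith [ha 0]) (by linarith [ha 0])
    have e1 : (p 1 - a 1) ^ 2 ≤ (2 * s) ^ 2 := sq_le_sq' (by linarith [ha 1]) (by linarith [ha 1])
    have s2 : 100 * s ≤ s ^ 2 := by nlinarith
    have e2 : (p 2 - a 2) ^ 2 ≤ (s ^ 2 / 9 + s) ^ 2 :=
      sq_le_sq' (by linarith [ha 2]) (by linarith [ha 2])
    have e3 : (4 * s ^ 2 / 27 - s) ^ 2 ≤ (4 * s ^ 2 / 27 - a 2) ^ 2 :=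
      pow_le_pow_left₀ (by linarith) (by linarith [ha 2]) 2
    nlinarith [sq_nonneg (c 0 - a 0), sq_nonneg (c 1 - a 1)]
  have r := rel p hp
  obtain ⟨b1, b2, b3⟩ := bd p hp
  obtain ⟨h0, h1, h2, h3, h4, h5⟩ := hp
  have x2 : 1000 ≤ p 0 ^ 2 := by nlinarith
  have x3 : 0 ≤ p 0 ^ 3 / s := by have : 0 ≤ p 0 := by linarith
                                  positivity
  have loc : IsLocalMaxOn (fun p => ‖p - a‖ ^ 2) {q | F q = F p} p := by
    have o : ∀ᶠ q : E 3 in 𝓝 p, s / 3 < q 0 ∧ q 0 < s ∧ 1 / 2 < q 0 ^ 3 * q 1 ∧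
        q 0 ^ 3 * q 1 < 3 / 2 ∧ 0 < q 2 := by
      refine .and ?_ (.and ?_ (.and ?_ (.and ?_ ?_))) <;>
        refine ContinuousAt.eventually_lt (by fun_prop) (by fun_prop) ?_
      · by_contra h; have : p 0 = s / 3 := by linarith
        rw [this] at b3; nlinarith
      · by_contra h
        have e : p 0 = s := by linarith
        have : p 0 ^ 3 / s = s ^ 2 := by rw [e]; field_simp
        rw [this] at r
        generalize p 0 ^ 3 * p 1 = u at *
        rw [e] at r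
        nlinarith [sq_nonneg (s ^ 2 * (1 - u) + 1 / 2)]
      · by_contra h
        have e : p 0 ^ 3 * p 1 = 1 / 2 := by linarith
        rw [e] at r; nlinarith
      · by_contra h
        have e : p 0 ^ 3 * p 1 = 3 / 2 := by linarith
        rw [e] at r; nlinarith
      · nlinarith
    filter_upwards [mem_nhdsWithin_of_mem_nhds o, self_mem_nhdsWithin] with q hq hq'
    exact hmax ⟨hq'.trans h0, hq.1.le, hq.2.1.le, hq.2.2.1.le, hq.2.2.2.1.le, hq.2.2.2.2.le⟩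
  obtain ⟨l, m, hlm, e⟩ := IsLocalExtrOn.exists_multipliers_of_hasStrictFDerivAt_1d (Or.inr loc)
    (smooth.contDiffAt.hasStrictFDerivAt (by simp))
    ((hasStrictFDerivAt_norm_sq (p - a)).comp p ((hasStrictFDerivAt_id p).sub_const a))
  refine ⟨p, h0, h1, fun hi => hlm ?_⟩
  have := LinearIndependent.pair_iff.1 hi l (2 * m) (by
    refine ext_inner_right ℝ (fun v => ?_)
    have := congrArg (fun L => L v) e
    simp only [inner_add_left, real_inner_smul_left, gradient, InnerProductSpace.toDual_symm_apply]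
    simp [inner_sub_left] at this ⊢
    linarith)
  exact Prod.ext this.1 (by simpa using this.2)

theorem result : ∃ f : MvPolynomial (Fin 3) ℝ,
    Coordinate (fun p : E 3 => MvPolynomial.eval p f) ∧
    ∀ a, Asym (fun p : E 3 => MvPolynomial.eval p f) a 0 := by
  open MvPolynomial in
  refine ⟨X 0 * (1 - X 0 ^ 3 * X 1) ^ 2 - X 0 ^ 2 * X 1 + X 1 * X 2, ?_⟩
  have e : (fun p : E 3 => MvPolynomial.eval p (MvPolynomial.X 0 * (1 - MvPolynomial.X 0 ^ 3 *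
      MvPolynomial.X 1) ^ 2 - MvPolynomial.X 0 ^ 2 * MvPolynomial.X 1 + MvPolynomial.X 1 *
      MvPolynomial.X 2 : MvPolynomial (Fin 3) ℝ)) = F := by ext p; simp [F]
  rw [e]
  refine ⟨coord, fun a => ?_⟩
  choose x h1 h2 h3 using fun j : ℕ => point a (‖a‖ + 100 + j) (by simp)
  have t : Tendsto (fun j : ℕ => ‖a‖ + 100 + (j : ℝ)) atTop atTop :=
    tendsto_atTop_add_const_left _ _ tendsto_natCast_atTop_atTop
  refine ⟨x, h3, tendsto_atTop_mono (fun j => (h2 j).trans ((le_abs_self _).trans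
    (PiLp.norm_apply_le (x j) 0))) (t.atTop_div_const (by norm_num)), ?_⟩
  simp only [h1]
  exact tendsto_const_nhds.div_atTop t

end Pool.Agent.Results.MP_025584_ag.Strict
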